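import Pool.Agent.Helper92.TN.GoalsH

/-!
TN-TCH (MP_a41896_nt): choice of a torsion translation.
-/

set_option autoImplicit false

open MvPolynomial

namespace Pool.Agent.Helper36.TN.TCH

open WeierstrassCurve
open Pool.Agent.Helper29.BL Pool.Agent.Helper92.Ru Pool.Agent.Helper42.SG
open Pool.Agent.Helper60.T3 (WL IP zd)
open Pool.Agent.Helper92.TN

noncomputable section

/-- an algebraically closed field with independent elements -/
lemma exA (Ω : Type) [Field Ω] (ι : Type) : ∃ (A₂ : Type) (_ : Field A₂) (_ : IsAlgClosed A₂)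
    (_ : Algebra Ω A₂) (Z : ι → A₂), AlgebraicIndependent Ω Z := by
  have h1 : AlgebraicIndependent Ω (X : ι → MvPolynomial ι Ω) :=
    MvPolynomial.algebraicIndependent_X ι Ω
  let f : MvPolynomial ι Ω →ₐ[Ω] AlgebraicClosure (FractionRing (MvPolynomial ι Ω)) :=
    IsScalarTower.toAlgHom Ω (MvPolynomial ι Ω)
      (AlgebraicClosure (FractionRing (MvPolynomial ι Ω)))
  have hf : Function.Injective f := by
    have h2 : Function.Injective (algebraMap (MvPolynomial ι Ω)
        (AlgebraicClosure (FractionRing (MvPolynomial ι Ω)))) := by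
      rw [IsScalarTower.algebraMap_eq (MvPolynomial ι Ω) (FractionRing (MvPolynomial ι Ω))
        (AlgebraicClosure (FractionRing (MvPolynomial ι Ω)))]
      exact (algebraMap (FractionRing (MvPolynomial ι Ω))
        (AlgebraicClosure (FractionRing (MvPolynomial ι Ω)))).injective.comp
          (IsFractionRing.injective _ _)
    exact h2
  exact ⟨AlgebraicClosure (FractionRing (MvPolynomial ι Ω)), inferInstance, inferInstance,
    inferInstance, f ∘ X, h1.map' hf⟩

theorem ps_sq {F : Type} [Field F] {W : Affine F} (P : W.Point) (hP : P ≠ 0) :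
    ps P ^ 2 = Bf W (xc P) := by
  cases P with
  | zero => exact absurd rfl hP
  | some x y h =>
    have h1 := (Affine.equation_iff x y).mp h.1
    simp only [ps, xc, Bf, WeierstrassCurve.b₂, WeierstrassCurve.b₄, WeierstrassCurve.b₆]
    linear_combination 4 * h1

lemma degreeOf_pderiv {A σ : Type} [CommRing A] (p : MvPolynomial σ A) (b i : σ) :
    degreeOf i (pderiv b p) ≤ degreeOf i p := by
  classical
  rw [degreeOf_le_iff]
  intro m hm
  rw [mem_support_iff, coeff_pderiv] at hm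
  have h1 : m + Finsupp.single b 1 ∈ p.support := by
    rw [mem_support_iff]
    intro h0
    apply hm
    rw [h0, zero_mul]
  have h2 := monomial_le_degreeOf i h1
  rw [Finsupp.add_apply] at h2
  omega

lemma degreeOf_map_le' {A B σ : Type} [CommRing A] [CommRing B] (φ : A →+* B)
    (p : MvPolynomial σ A) (i : σ) : degreeOf i (map φ p) ≤ degreeOf i p := by
  rw [degreeOf_le_iff]
  intro m hm
  exact monomial_le_degreeOf i (support_map_subset φ p hm)

/-- consequence of `NotFlat` over `Ω` -/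
lemma core {K : Type} [Field K] {σ : Type} [Fintype σ] (W : σ → Affine K) (a : σ)
    (g : MvPolynomial σ K) (hNF : NotFlat W a g) (Ω : Type) [Field Ω] [IsAlgClosed Ω]
    [Algebra K Ω] (lam : σ → Ω) (hlam : lam ≠ 0) (A₂ : Type) [Field A₂] [Algebra Ω A₂]
    (Z : {c : σ // c ≠ a} → A₂) (hZ : AlgebraicIndependent Ω Z) (Y Ψ : σ → A₂)
    (hY : ∀ c : {c : σ // c ≠ a}, Y c = Z c)
    (hΨ : ∀ i, Ψ i ^ 2 = Bf ((WL Ω (W i)).map (algebraMap Ω A₂)) (Y i))
    (hg : aeval Y (map (algebraMap K Ω) g) = 0) :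
    ∑ b, Ψ b * aeval Y (C (lam b) * pderiv b (map (algebraMap K Ω) g)) ≠ 0 := by
  let alg : Algebra K A₂ := ((algebraMap Ω A₂).comp (algebraMap K Ω)).toAlgebra
  have tow : IsScalarTower K Ω A₂ := IsScalarTower.of_algebraMap_eq (fun _ => rfl)
  have h1 : ∀ i, Ψ i ^ 2 = Bf (WL A₂ (W i)) (Y i) := by
    intro i
    rw [hΨ i]
    have e1 : (WL Ω (W i)).map (algebraMap Ω A₂) = WL A₂ (W i) := rfl
    rw [e1]
  have h2 : aeval Y g = 0 := by
    rw [aeval_map_algebraMap] at hg
    exact hg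
  have h3 : AlgebraicIndependent Ω (fun i : {i : σ // i ≠ a} => Y i) := by
    have e2 : (fun i : {i : σ // i ≠ a} => Y i) = Z := funext hY
    rw [e2]
    exact hZ
  intro h0
  apply hlam
  refine hNF Ω A₂ Y Ψ h1 h2 h3 lam ?_
  rw [← h0]
  apply Finset.sum_congr rfl
  intro b _
  rw [map_mul, aeval_C, pderiv_map, aeval_map_algebraMap]
  ring

theorem t (hNRMP : NRMP) (hGRID : GRID) : Pool.Agent.Helper92.TN.TCH := by
  intro D0 n
  obtain ⟨B0, hB0⟩ := hNRMP D0 n
  refine ⟨B0, ?_⟩
  intro K _ _ σ _ _ W a g hcard hell hdeg hNF Ω _ _ _ _ x e hx hBe lam hlam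
  have : CharZero Ω := charZero_of_injective_algebraMap (algebraMap K Ω).injective
  obtain ⟨A₂, _, _, _, Z, hZ⟩ := exA Ω {c : σ // c ≠ a}
  have hg0 : map (algebraMap K Ω) g ≠ 0 := by
    intro hcon
    have hex : ∀ i : σ, ∃ Ψ : A₂, Ψ ^ 2 = Bf ((WL Ω (W i)).map (algebraMap Ω A₂))
        (if h : i ≠ a then Z ⟨i, h⟩ else 0) := by
      intro i
      obtain ⟨z, hz⟩ := IsAlgClosed.exists_pow_nat_eq
        (Bf ((WL Ω (W i)).map (algebraMap Ω A₂)) (if h : i ≠ a then Z ⟨i, h⟩ else 0))
        (n := 2) (by norm_num)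
      exact ⟨z, hz⟩
    choose Ψ hΨ using hex
    refine core W a g hNF Ω lam hlam A₂ Z hZ (fun i => if h : i ≠ a then Z ⟨i, h⟩ else 0) Ψ
      ?_ hΨ ?_ ?_
    · intro c
      exact dif_pos c.2
    · rw [hcon, map_zero]
    · rw [hcon]
      apply Finset.sum_eq_zero
      intro b _
      rw [map_zero, mul_zero, map_zero, mul_zero]
  obtain ⟨R, hR0, hRd, hRv⟩ := hB0 Ω σ (fun i => WL Ω (W i)) a (map (algebraMap K Ω) g)
    (fun b => C (lam b) * pderiv b (map (algebraMap K Ω) g)) hcard hg0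
    (fun i => (degreeOf_map_le' _ g i).trans (hdeg i))
    (fun b i => (degreeOf_C_mul_le _ i (lam b)).trans
      ((degreeOf_pderiv _ b i).trans ((degreeOf_map_le' _ g i).trans (hdeg i))))
    ⟨A₂, inferInstance, inferInstance, inferInstance, Z, hZ, fun Y Ψ hY hΨ hg =>
      core W a g hNF Ω lam hlam A₂ Z hZ Y Ψ hY hΨ hg⟩
  obtain ⟨t, ht1, ht2⟩ := hGRID K Ω σ W hell a x e hx R hR0
    (fun c => lt_of_le_of_lt (hRd c) hBe)
  refine ⟨t, ht1, ?_⟩
  intro y hy0 hyc hyg hsum
  apply ht2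
  have h1 := hRv (fun i => xc (y i)) (fun i => ps (y i)) (fun i => ps_sq (y i) (hy0 i)) ?_ ?_
  · have e1 : (fun c : {c : σ // c ≠ a} => xc (x c + t c)) =
        fun c : {c : σ // c ≠ a} => (fun i => xc (y i)) (c : σ) := by
      funext c
      show xc (x c + t c) = xc (y c)
      rw [hyc c c.2]
    rw [e1]
    exact h1
  · rw [eval_map]
    exact hyg
  · rw [← hsum]
    apply Finset.sum_congr rfl
    intro b _
    unfold nv
    rw [map_mul, eval_C, pderiv_map, eval_map]
    have e2 : eval₂ (algebraMap K Ω) (fun i => xc (y i)) (pderiv b g) =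
        aeval (fun i => xc (y i)) (pderiv b g) := rfl
    rw [e2]
    ring

end

end Pool.Agent.Helper36.TN.TCH
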