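import Pool.Agent.Helper42.TN.GoalsT

set_option autoImplicit false

namespace Pool.Agent.Helper36.TN

open Finset

theorem t_NUMN : Pool.Agent.Helper42.TN.NUMN := by
  intro m n M k0 E ε θ c0 C CA C0 hn hε hk hθ hMθ hc0 hC hCA hC0
  obtain ⟨mc, hmc⟩ : ∃ mc : ℝ, mc = m * c0 := ⟨_, rfl⟩
  have hmc0 : 0 ≤ mc := by rw [hmc]; positivity
  obtain ⟨C1, hC1⟩ : ∃ C1 : ℝ, C1 = n * (M * mc + 4 + 3 * mc + 2 * C) + 2 * C0 + E * mc + mc +
      C * CA := ⟨_, rfl⟩
  have hC1pos : 0 ≤ C1 := by rw [hC1]; positivity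
  refine ⟨C1 + 1, ?_⟩
  intro σ _ q y g w A2 Q T A X0s X a hcard hq hQT hy hg hg0 hw hX0 hX hXs ha ha1 hA hA2 hmain
  rw [← hmc] at hX0
  have hw' : ∀ j, w j ≤ θ * T + mc := by rw [hmc]; exact hw
  have hXs' : ∀ j, ∑ i, X (j, i) ≤ y j + mc := by rw [hmc]; exact hXs
  have hQ1 : 1 ≤ Q := (hq ⟨0, hn⟩).1.trans (hq ⟨0, hn⟩).2.1
  have hT1 : Q ≤ T := by nlinarith
  have hT0 : 0 < T := by linarith
  obtain ⟨δ, hδ⟩ : ∃ δ : ℝ, δ = T / (C1 + 1) := ⟨_, rfl⟩
  have hδT : (C1 + 1) * δ = T := by rw [hδ]; field_simp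
  have hQδ : Q ≤ δ := by rw [hδ, le_div_iff₀ (by linarith)]; linarith
  obtain ⟨s, hs⟩ : ∃ s : Fin n → ℝ, s = fun j => ∑ i, a (j, i) := ⟨_, rfl⟩
  obtain ⟨x, hx⟩ : ∃ x : Fin n → ℝ, x = fun j => ∑ i, X (j, i) := ⟨_, rfl⟩
  have hs0 : ∀ j, 0 ≤ s j := by
    intro j; rw [hs]; exact sum_nonneg fun i _ => ha _
  have hx0 : ∀ j, 0 ≤ x j := by
    intro j; rw [hx]; exact sum_nonneg fun i _ => hX _
  have hxy : ∀ j, x j ≤ y j + mc := by
    intro j; rw [hx]; exact hXs' j
  have e1 : ∑ h : Fin n × σ, a h / q h.1 = ∑ j, s j / q j := by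
    rw [Fintype.sum_prod_type]
    apply sum_congr rfl
    intro j _
    rw [hs, sum_div]
  have e2 : ∑ h : Fin n × σ, a h * (C + g h.1 + 2 * A2 h.1 + E * ∑ i, X (h.1, i)) =
      ∑ j, s j * (C + g j + 2 * A2 j + E * x j) := by
    rw [Fintype.sum_prod_type]
    apply sum_congr rfl
    intro j _
    rw [hs, hx, sum_mul]
  rw [e1] at ha1
  rw [e2] at hmain
  have hr0 : ∀ j, 0 ≤ s j / q j := fun j => div_nonneg (hs0 j) (by linarith [(hq j).1])
  have hsq : ∀ j, s j ≤ q j := by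
    intro j
    have h1 : s j / q j ≤ ∑ j, s j / q j :=
      single_le_sum (f := fun j => s j / q j) (fun i _ => hr0 i) (mem_univ j)
    have h2 : s j / q j < 1 := lt_of_le_of_lt h1 ha1
    have h3 : 0 < q j := by linarith [(hq j).1]
    rw [div_lt_one h3] at h2
    exact h2.le
  obtain ⟨P, hP⟩ : ∃ P : ℝ, P = 3 * T + M * mc + 4 * δ + 3 * (Q * mc) + 2 * (C * Q) := ⟨_, rfl⟩
  obtain ⟨R, hR⟩ : ∃ R : ℝ, R = 2 * (C0 * Q) + E * (2 * T + Q * mc) := ⟨_, rfl⟩
  have hR0 : 0 ≤ R := by rw [hR]; positivity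
  have hj : ∀ j, M * w j + (q j + 2) * x j + s j * (C + g j + 2 * A2 j + E * x j) + C * q j ≤
      P + q j * g j + s j / q j * R := by
    intro j
    obtain ⟨q1, q2, q3⟩ := hq j
    obtain ⟨y1, y2⟩ := hy j
    have hqpos : 0 < q j := by linarith
    have hyδ : y j ≤ 2 * δ := by
      have h1 : (C1 + 1) * y j ≤ q j * y j := mul_le_mul_of_nonneg_right q3 y1
      have h2 : (C1 + 1) * y j ≤ (C1 + 1) * (2 * δ) := by
        calc (C1 + 1) * y j ≤ 2 * T := h1.trans y2
          _ = (C1 + 1) * (2 * δ) := by rw [← hδT]; ring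
      exact le_of_mul_le_mul_left h2 (by linarith)
    have b1 : M * w j ≤ T + M * mc := by
      calc M * w j ≤ M * (θ * T + mc) := mul_le_mul_of_nonneg_left (hw' j) (by positivity)
        _ = M * θ * T + M * mc := by ring
        _ ≤ 1 * T + M * mc := by
            have := mul_le_mul_of_nonneg_right hMθ hT0.le
            linarith
        _ = T + M * mc := by ring
    have b2 : (q j + 2) * x j ≤ 2 * T + 4 * δ + 3 * (Q * mc) := by
      calc (q j + 2) * x j ≤ (q j + 2) * (y j + mc) :=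
            mul_le_mul_of_nonneg_left (hxy j) (by linarith)
        _ = q j * y j + 2 * y j + q j * mc + 2 * (1 * mc) := by ring
        _ ≤ 2 * T + 2 * (2 * δ) + Q * mc + 2 * (Q * mc) := by
            have h1 := mul_le_mul_of_nonneg_right q2 hmc0
            have h2 := mul_le_mul_of_nonneg_right hQ1 hmc0
            linarith
        _ = 2 * T + 4 * δ + 3 * (Q * mc) := by ring
    have b3 : s j * C ≤ C * Q := by
      calc s j * C ≤ Q * C := mul_le_mul_of_nonneg_right ((hsq j).trans q2) hC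
        _ = C * Q := by ring
    have b4 : s j * g j ≤ q j * g j := mul_le_mul_of_nonneg_right (hsq j) (hg0 j)
    have b5 : s j * (2 * A2 j) ≤ s j / q j * (2 * (C0 * Q)) := by
      calc s j * (2 * A2 j) = s j / q j * (2 * (q j * A2 j)) := by field_simp
        _ ≤ s j / q j * (2 * (C0 * Q)) := by
            apply mul_le_mul_of_nonneg_left _ (hr0 j)
            linarith [hA2 j]
    have b6 : s j * (E * x j) ≤ s j / q j * (E * (2 * T + Q * mc)) := by
      calc s j * (E * x j) = s j / q j * (E * (q j * x j)) := by field_simp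
        _ ≤ s j / q j * (E * (2 * T + Q * mc)) := by
            apply mul_le_mul_of_nonneg_left _ (hr0 j)
            apply mul_le_mul_of_nonneg_left _ (by positivity)
            calc q j * x j ≤ q j * (y j + mc) := mul_le_mul_of_nonneg_left (hxy j) hqpos.le
              _ = q j * y j + q j * mc := by ring
              _ ≤ 2 * T + Q * mc := by
                  have h1 := mul_le_mul_of_nonneg_right q2 hmc0
                  linarith
    have b7 : C * q j ≤ C * Q := mul_le_mul_of_nonneg_left q2 hC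
    have e3 : s j * (C + g j + 2 * A2 j + E * x j) =
        s j * C + s j * g j + s j * (2 * A2 j) + s j * (E * x j) := by ring
    have e4 : s j / q j * R = s j / q j * (2 * (C0 * Q)) +
        s j / q j * (E * (2 * T + Q * mc)) := by rw [hR]; ring
    rw [e3, e4, hP]
    linarith
  have hsum := sum_le_sum fun j (_ : j ∈ (univ : Finset (Fin n))) => hj j
  obtain ⟨G, hG⟩ : ∃ G : ℝ, G = ∑ j, q j * g j := ⟨_, rfl⟩
  have e5 : ∑ j, (M * w j + (q j + 2) * x j + s j * (C + g j + 2 * A2 j + E * x j) + C * q j) =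
      ∑ j, (M * w j + (q j + 2) * x j) + ∑ j, s j * (C + g j + 2 * A2 j + E * x j) +
        C * ∑ j, q j := by
    rw [sum_add_distrib, sum_add_distrib, mul_sum]
  have e6 : ∑ j, (P + q j * g j + s j / q j * R) = n * P + G + (∑ j, s j / q j) * R := by
    rw [sum_add_distrib, sum_add_distrib, ← hG, sum_mul, sum_const, card_univ, Fintype.card_fin,
      nsmul_eq_mul]
  have e7 : ∑ j, (k0 : ℝ) * q j * g j = k0 * G := by
    rw [hG, mul_sum]
    apply sum_congr rfl
    intro j _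
    ring
  have e8 : ∑ j, (M * w j + (q j + 2) * ∑ i, X (j, i)) =
      ∑ j, (M * w j + (q j + 2) * x j) := by rw [hx]
  rw [e5, e6] at hsum
  rw [e7, e8] at hmain
  have hGlow : n * (ε * T) ≤ G := by
    rw [hG]
    have h1 : ∑ _j : Fin n, ε * T ≤ ∑ j, q j * g j := sum_le_sum fun j _ => hg j
    rwa [sum_const, card_univ, Fintype.card_fin, nsmul_eq_mul] at h1
  have h1 : (∑ j, s j / q j) * R ≤ 1 * R := mul_le_mul_of_nonneg_right ha1.le hR0
  have h2 : C * (∑ j, q j + A) ≤ C * ∑ j, q j + C * CA * Q := by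
    have := mul_le_mul_of_nonneg_left hA hC
    calc C * (∑ j, q j + A) = C * ∑ j, q j + C * A := by ring
      _ ≤ C * ∑ j, q j + C * (CA * Q) := by linarith
      _ = C * ∑ j, q j + C * CA * Q := by ring
  have h3 : ((k0 : ℝ) - 1) * G ≤ n * P + R + (2 * T + mc) + C * CA * Q := by
    linarith
  -- the right side is at most `(3 n + 2 + 2 E) T + C1 δ`
  have hn0 : (0 : ℝ) ≤ n := Nat.cast_nonneg n
  have hM0 : (0 : ℝ) ≤ M := Nat.cast_nonneg M
  have hE0 : (0 : ℝ) ≤ E := Nat.cast_nonneg E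
  have h1δ : 1 ≤ δ := hQ1.trans hQδ
  have p1 : P ≤ 3 * T + δ * (M * mc + 4 + 3 * mc + 2 * C) := by
    rw [hP]
    have a1 : M * mc * 1 ≤ M * mc * δ := mul_le_mul_of_nonneg_left h1δ (by positivity)
    have a2 : Q * mc ≤ δ * mc := mul_le_mul_of_nonneg_right hQδ hmc0
    have a3 : C * Q ≤ C * δ := mul_le_mul_of_nonneg_left hQδ hC
    linarith
  have p2 : R ≤ 2 * E * T + δ * (2 * C0 + E * mc) := by
    rw [hR]
    have a1 : C0 * Q ≤ C0 * δ := mul_le_mul_of_nonneg_left hQδ hC0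
    have a2 : E * (Q * mc) ≤ E * (δ * mc) :=
      mul_le_mul_of_nonneg_left (mul_le_mul_of_nonneg_right hQδ hmc0) hE0
    linarith
  have p3 : mc ≤ δ * mc := by
    have := mul_le_mul_of_nonneg_right h1δ hmc0
    linarith
  have p4 : C * CA * Q ≤ δ * (C * CA) := by
    have := mul_le_mul_of_nonneg_left hQδ (mul_nonneg hC hCA)
    linarith
  have p5 : n * P ≤ n * (3 * T) + δ * (n * (M * mc + 4 + 3 * mc + 2 * C)) := by
    have := mul_le_mul_of_nonneg_left p1 hn0
    calc n * P ≤ n * (3 * T + δ * (M * mc + 4 + 3 * mc + 2 * C)) := this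
      _ = n * (3 * T) + δ * (n * (M * mc + 4 + 3 * mc + 2 * C)) := by ring
  have h4 : ((k0 : ℝ) - 1) * G ≤ n * (3 * T) + 2 * E * T + 2 * T + δ * C1 := by
    rw [hC1]
    have e9 : δ * (n * (M * mc + 4 + 3 * mc + 2 * C) + 2 * C0 + E * mc + mc + C * CA) =
        δ * (n * (M * mc + 4 + 3 * mc + 2 * C)) + δ * (2 * C0 + E * mc) + δ * mc +
          δ * (C * CA) := by ring
    rw [e9]
    linarith
  have h5 : δ * C1 = T - δ := by linarith
  -- the left side
  have hk1 : 0 < (k0 : ℝ) - 1 := by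
    by_contra hcon
    have : ((k0 : ℝ) - 1) * ε ≤ 0 := mul_nonpos_of_nonpos_of_nonneg (not_lt.1 hcon) hε.le
    linarith
  have hn1 : (1 : ℝ) ≤ n := by exact_mod_cast hn
  have h6 : n * (14 + 2 * (E : ℝ)) * T ≤ ((k0 : ℝ) - 1) * G := by
    calc n * (14 + 2 * (E : ℝ)) * T ≤ n * (((k0 : ℝ) - 1) * ε) * T := by
          apply mul_le_mul_of_nonneg_right _ hT0.le
          exact mul_le_mul_of_nonneg_left hk hn0
      _ = ((k0 : ℝ) - 1) * (n * (ε * T)) := by ring
      _ ≤ ((k0 : ℝ) - 1) * G := mul_le_mul_of_nonneg_left hGlow hk1.le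
  have h7 : (3 * (n : ℝ) + 3 + 2 * E) * T ≤ n * (14 + 2 * (E : ℝ)) * T := by
    apply mul_le_mul_of_nonneg_right _ hT0.le
    nlinarith
  have h8 : (3 * (n : ℝ) + 3 + 2 * E) * T = n * (3 * T) + 2 * E * T + 2 * T + T := by ring
  rw [h8] at h7
  linarith

end Pool.Agent.Helper36.TN
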