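import Pool.Agent.Helper92.TN.GoalsD

/-!
TN-DEGB (MP_a41896_nt): the degree bound by a relation.
-/

set_option autoImplicit false

open MvPolynomial

namespace Pool.Agent.Helper36.TN.DEGB

open Pool.Agent.Helper92.TN

noncomputable section

/-- transcendence degree at most one -/
lemma trdeg_le {k M : Type} [Field k] [Field M] [Algebra k M] (t : M)
    (h : ∀ z : M, IsAlgebraic (IntermediateField.adjoin k {t}) z) : Algebra.trdeg k M ≤ 1 := by
  open scoped IntermediateField.algebraAdjoinAdjoin in
  have h1 : Algebra.IsAlgebraic (IntermediateField.adjoin k {t}) M := ⟨h⟩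
  open scoped IntermediateField.algebraAdjoinAdjoin in
  have h2 : Algebra.IsAlgebraic (Algebra.adjoin k {t}) M :=
    Algebra.IsAlgebraic.trans (Algebra.adjoin k {t}) (IntermediateField.adjoin k {t}) M
  have h3 := Algebra.IsAlgebraic.trdeg_le_cardinalMk k ({t} : Set M)
  simpa using h3

/-- exchange -/
lemma isAlgebraic_of_trdeg {k F : Type} [Field k] [Field F] [Algebra k F]
    (h : Algebra.trdeg k F ≤ 1) (u : F) (hu : Transcendental k u) :
    Algebra.IsAlgebraic (IntermediateField.adjoin k {u}) F := by
  have h1 : AlgebraicIndependent k (fun _ : Unit => u) :=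
    algebraicIndependent_unique_type_iff.2 hu
  have h2 : IsTranscendenceBasis k (fun _ : Unit => u) :=
    h1.isTranscendenceBasis_of_trdeg_le_of_finite (by simpa using h)
  have h3 := h2.isAlgebraic_field
  rwa [Set.range_const] at h3

/-- finiteness -/
lemma finite_of {k F : Type} [Field k] [Field F] [Algebra k F] [Algebra.EssFiniteType k F]
    (h : Algebra.trdeg k F ≤ 1) (u : F) (hu : Transcendental k u) :
    FiniteDimensional (IntermediateField.adjoin k {u}) F := by
  have h1 := isAlgebraic_of_trdeg h u hu
  have h2 : Algebra.EssFiniteType (IntermediateField.adjoin k {u}) F :=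
    Algebra.EssFiniteType.of_comp k _ F
  exact Algebra.finite_of_essFiniteType_of_isAlgebraic

/-- the specialisation of the variable `none` -/
def spec {k : Type} [Field k] {ι : Type} (ω : k) (R : MvPolynomial (Option ι) k) :
    MvPolynomial ι k := aeval (fun o : Option ι => o.elim (C ω) X) R

lemma degreeOf_spec {k : Type} [Field k] {ι : Type} [Fintype ι] (ω : k)
    (R : MvPolynomial (Option ι) k) (i : ι) : degreeOf i (spec ω R) ≤ degreeOf (some i) R := by
  unfold spec
  rw [aeval_def, eval₂_eq']
  refine (degreeOf_sum_le i _ _).trans ?_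
  apply Finset.sup_le
  intro d hd
  have h1 : d (some i) ≤ degreeOf (some i) R := monomial_le_degreeOf (some i) hd
  refine le_trans ?_ h1
  rw [Fintype.prod_option]
  simp only [Option.elim_none, Option.elim_some]
  have h2 : (algebraMap k (MvPolynomial ι k)) (coeff d R) * (C ω ^ d none *
      ∏ j, X j ^ d (some j)) = monomial (Finsupp.equivFunOnFinite.symm fun j => d (some j))
        (coeff d R * ω ^ d none) := by
    rw [monomial_eq, Finsupp.prod_fintype _ _ (by simp), algebraMap_eq, C_mul, C_pow, mul_assoc]
    rfl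
  rw [h2]
  rw [degreeOf_le_iff]
  intro m hm
  have h3 := support_monomial_subset hm
  rw [Finset.mem_singleton] at h3
  rw [h3]
  rfl

lemma aeval_spec {k : Type} [Field k] {ι : Type} {A : Type} [CommRing A] [Algebra k A] (ω : k)
    (R : MvPolynomial (Option ι) k) (x : ι → A) :
    aeval x (spec ω R) = aeval (fun o : Option ι => o.elim (algebraMap k A ω) x) R := by
  unfold spec
  rw [← AlgHom.comp_apply, comp_aeval]
  congr 2
  funext o
  cases o with
  | none => simp
  | some i => simp

/-- the polynomial in the variable `none` -/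
def pol {k : Type} [Field k] {ι : Type} {A : Type} [CommRing A] [Algebra k A]
    (R : MvPolynomial (Option ι) k) (x : ι → A) : Polynomial A :=
  aeval (fun o : Option ι => o.elim Polynomial.X (fun i => Polynomial.C (x i))) R

lemma eval_pol {k : Type} [Field k] {ι : Type} {A : Type} [CommRing A] [Algebra k A]
    (R : MvPolynomial (Option ι) k) (x : ι → A) (c : A) :
    (pol R x).eval c = aeval (fun o : Option ι => o.elim c x) R := by
  unfold pol
  have h1 : (Polynomial.eval c) = (Polynomial.aeval c : Polynomial A →ₐ[A] A) := by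
    funext p; simp [Polynomial.coe_aeval_eq_eval]
  rw [← Polynomial.coe_aeval_eq_eval c]
  have h2 : ∀ p : Polynomial A, (Polynomial.aeval c : Polynomial A →ₐ[A] A) p =
      ((Polynomial.aeval c : Polynomial A →ₐ[A] A).restrictScalars k) p := fun _ => rfl
  rw [h2, ← AlgHom.comp_apply, comp_aeval]
  congr 2
  funext o
  cases o with
  | none => simp
  | some i => simp

theorem t (hREMF : REMF) (hDGR : DGR) (hDGF : DGF) : Pool.Agent.Helper92.TN.DEGB := by
  classical
  intro k M _ _ _ _ t ht halg ι _ x v N R hN hR0 hRc
  by_cases hv : IsAlgebraic k v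
  · rw [(hDGF k M t v ht).2.1 hv]
    exact Finset.sum_nonneg fun i _ => mul_nonneg (Nat.cast_nonneg _) (hDGF k M t (x i) ht).1
  have hv' : Transcendental k v := hv
  obtain ⟨S, hS⟩ : ∃ S : Set M, S = insert t (insert v (Set.range x)) := ⟨_, rfl⟩
  have hSf : S.Finite := by
    rw [hS]; exact ((Set.finite_range x).insert v).insert t
  obtain ⟨F, hF⟩ : ∃ F : IntermediateField k M, F = IntermediateField.adjoin k S := ⟨_, rfl⟩
  have hSF : S ⊆ F := by rw [hF]; exact IntermediateField.subset_adjoin k S
  have htF : t ∈ F := hSF (by rw [hS]; exact Set.mem_insert _ _)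
  have hvF : v ∈ F := hSF (by rw [hS]; exact Set.mem_insert_of_mem _ (Set.mem_insert _ _))
  have hxF : ∀ i, x i ∈ F := fun i => hSF (by
    rw [hS]; exact Set.mem_insert_of_mem _ (Set.mem_insert_of_mem _ ⟨i, rfl⟩))
  have hess : Algebra.EssFiniteType k F := by
    rw [IntermediateField.essFiniteType_iff, hF]
    exact IntermediateField.fg_adjoin_of_finite hSf
  have htr : Algebra.trdeg k F ≤ 1 :=
    (trdeg_le_of_injective F.val F.val.injective).trans (trdeg_le t halg)
  obtain ⟨t', ht'⟩ : ∃ t' : F, t' = ⟨t, htF⟩ := ⟨_, rfl⟩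
  obtain ⟨v', hv''⟩ : ∃ v' : F, v' = ⟨v, hvF⟩ := ⟨_, rfl⟩
  obtain ⟨x', hx'⟩ : ∃ x' : ι → F, x' = fun i => ⟨x i, hxF i⟩ := ⟨_, rfl⟩
  have et : F.val t' = t := by rw [ht']; rfl
  have ev : F.val v' = v := by rw [hv'']; rfl
  have ex : ∀ i, F.val (x' i) = x i := by intro i; rw [hx']; rfl
  have htt : Transcendental k t' := by
    intro hcon
    apply ht
    rw [← et]
    exact IsAlgebraic.algHom F.val hcon
  have hvt : Transcendental k v' := by
    intro hcon
    apply hv
    rw [← ev]
    exact IsAlgebraic.algHom F.val hcon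
  have fdt : FiniteDimensional (IntermediateField.adjoin k {t'}) F := finite_of htr t' htt
  have fdv : FiniteDimensional (IntermediateField.adjoin k {v'}) F := finite_of htr v' hvt
  obtain ⟨Z, hZ⟩ := hREMF k F v' hvt fdv ι x'
  -- the choice of `ω`
  have hfin : {ω : k | (pol R x).eval (algebraMap k M ω) = 0}.Finite := by
    have hp0 : pol R x ≠ 0 := by
      intro hcon
      obtain ⟨c, hc⟩ := hRc
      apply hc
      rw [← eval_pol, hcon, Polynomial.eval_zero]
    have h1 : ((pol R x).roots.toFinset : Set M).Finite := Finset.finite_toSet _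
    refine (h1.preimage (f := algebraMap k M) (algebraMap k M).injective.injOn).subset ?_
    intro ω hω
    rw [Set.mem_preimage, Finset.mem_coe, Multiset.mem_toFinset, Polynomial.mem_roots hp0]
    exact hω
  have hinf : Infinite k := inferInstance
  obtain ⟨ω, hω⟩ : ∃ ω : k, ω ∉ {ω : k | (pol R x).eval (algebraMap k M ω) = 0} ∪ (Z : Set k) :=
    (hfin.union Z.finite_toSet).exists_notMem
  rw [Set.mem_union, not_or] at hω
  obtain ⟨hω1, hω2⟩ := hω
  have eF : ∀ c : F, F.val (aeval (fun o : Option ι => o.elim c x') R) =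
      aeval (fun o : Option ι => o.elim (F.val c) x) R := by
    intro c
    rw [← AlgHom.comp_apply, comp_aeval]
    congr 2
    funext o
    cases o with
    | none => rfl
    | some i => exact ex i
  have hf : aeval x' (spec ω R) ≠ 0 := by
    intro hcon
    apply hω1
    show (pol R x).eval (algebraMap k M ω) = 0
    rw [eval_pol]
    have h1 := eF (algebraMap k F ω)
    rw [← aeval_spec, hcon, map_zero] at h1
    exact h1.symm
  have hR0' : aeval (fun o : Option ι => o.elim v' x') R = 0 := by
    have hinj : Function.Injective F.val := F.val.injective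
    apply hinj
    rw [eF, ev, hR0, map_zero]
  have hG : ∃ G ∈ Algebra.adjoin k (insert v' (Set.range x')),
      aeval x' (spec ω R) = (v' - algebraMap k F ω) * G := by
    obtain ⟨B, hB⟩ : ∃ B : Subalgebra k F, B = Algebra.adjoin k (insert v' (Set.range x')) :=
      ⟨_, rfl⟩
    have hvB : v' ∈ B := by
      rw [hB]; exact Algebra.subset_adjoin (Set.mem_insert _ _)
    have hxB : ∀ i, x' i ∈ B := by
      intro i
      rw [hB]; exact Algebra.subset_adjoin (Set.mem_insert_of_mem _ ⟨i, rfl⟩)
    have eB : ∀ c : B, B.val (aeval (fun o : Option ι => o.elim c (fun i => (⟨x' i, hxB i⟩ : B)))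
        R) = aeval (fun o : Option ι => o.elim (B.val c) x') R := by
      intro c
      rw [← AlgHom.comp_apply, comp_aeval]
      congr 2
      funext o
      cases o with
      | none => rfl
      | some i => rfl
    obtain ⟨G, hG⟩ := Polynomial.sub_dvd_eval_sub (⟨v', hvB⟩ : B) (algebraMap k B ω)
      (pol R (fun i => (⟨x' i, hxB i⟩ : B)))
    rw [eval_pol, eval_pol] at hG
    have h1 := congrArg B.val hG
    rw [map_sub, eB, eB, map_mul, map_sub] at h1
    have h2 : B.val (algebraMap k B ω) = algebraMap k F ω := rfl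
    have h3 : B.val (⟨v', hvB⟩ : B) = v' := rfl
    rw [h2, h3, hR0', ← aeval_spec] at h1
    refine ⟨-(G : F), ?_, ?_⟩
    · rw [← hB]
      exact B.neg_mem G.2
    · have h4 : B.val G = (G : F) := rfl
      rw [h4] at h1
      linear_combination -h1
  have key := hZ ω (by simpa using hω2) N (spec ω R)
    (fun i => (degreeOf_spec ω R i).trans (hN i)) hf hG
  -- the normalised degrees
  have hdg : ∀ f : F, (Module.finrank (IntermediateField.adjoin k {f}) F : ℝ) =
      dg k t (F.val f) * Module.finrank (IntermediateField.adjoin k {t'}) F := by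
    intro f
    have h1 := hDGR.1 k F t' f htt fdt
    have h2 := hDGR.2 k F k M (RingEquiv.refl k) F.val.toRingHom (fun c => rfl) t' f
    have h3 : F.val.toRingHom t' = t := et
    rw [h3] at h2
    have h4 : F.val.toRingHom f = F.val f := rfl
    rw [h4] at h2
    rw [h2]
    exact h1
  have hpos : (0 : ℝ) < Module.finrank (IntermediateField.adjoin k {t'}) F := by
    have := Module.finrank_pos (R := IntermediateField.adjoin k {t'}) (M := F)
    exact_mod_cast this
  have key' : (Module.finrank (IntermediateField.adjoin k {v'}) F : ℝ) ≤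
      ∑ i, (N i : ℝ) * Module.finrank (IntermediateField.adjoin k {x' i}) F := by
    exact_mod_cast key
  rw [hdg v', ev] at key'
  have h5 : ∑ i, (N i : ℝ) * (Module.finrank (IntermediateField.adjoin k {x' i}) F : ℝ) =
      (∑ i, (N i : ℝ) * dg k t (x i)) * Module.finrank (IntermediateField.adjoin k {t'}) F := by
    rw [Finset.sum_mul]
    apply Finset.sum_congr rfl
    intro i _
    rw [hdg (x' i), ex i]
    ring
  rw [h5] at key'
  exact le_of_mul_le_mul_right key' hpos

end

end Pool.Agent.Helper36.TN.DEGB
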